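import Pool.Agent.H484.AL.Stm

namespace Pool.Agent.H484.AL

open Finset
open scoped Classical

namespace DISC

private lemma bdd (d N : ℕ) (a : Fin d → ℕ) :
    BddAbove {x : ℝ | ∃ u v : Fin d → ℝ, (∀ i, 0 ≤ u i ∧ u i ≤ v i ∧ v i ≤ 1) ∧
    x = |(((range N).filter (fun n : ℕ => ∀ i, u i ≤ Int.fract (((n * a i : ℕ) : ℝ) / (N : ℝ)) ∧
      Int.fract (((n * a i : ℕ) : ℝ) / (N : ℝ)) < v i)).card : ℝ) / (N : ℝ)
        - ∏ i, (v i - u i)|} := by
  refine ⟨1, ?_⟩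
  rintro x ⟨u, v, h, rfl⟩
  set c := ((range N).filter (fun n : ℕ => ∀ i, u i ≤ Int.fract (((n * a i : ℕ) : ℝ) / (N : ℝ)) ∧
      Int.fract (((n * a i : ℕ) : ℝ) / (N : ℝ)) < v i)).card with hc
  have h1 : c ≤ N := by
    rw [hc]
    exact (card_filter_le _ _).trans (by simp)
  have h2 : (c : ℝ) / (N : ℝ) ≤ 1 := by
    apply div_le_one_of_le₀
    · exact_mod_cast h1
    · positivity
  have h3 : 0 ≤ (c : ℝ) / (N : ℝ) := by positivity
  have h4 : 0 ≤ ∏ i, (v i - u i) := prod_nonneg (fun i _ => by have := h i; linarith)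
  have h5 : ∏ i, (v i - u i) ≤ 1 :=
    prod_le_one (fun i _ => by have := h i; linarith) (fun i _ => by have := h i; linarith)
  rw [abs_le]
  constructor <;> linarith

end DISC

theorem t_DISC : S_DISC := by
  intro d N a hN
  have hA : ∀ u v : Fin d → ℝ, (∀ i, 0 ≤ u i ∧ u i ≤ v i ∧ v i ≤ 1) →
    |(((range N).filter (fun n : ℕ => ∀ i, u i ≤ Int.fract (((n * a i : ℕ) : ℝ) / (N : ℝ)) ∧
      Int.fract (((n * a i : ℕ) : ℝ) / (N : ℝ)) < v i)).card : ℝ) / (N : ℝ) - ∏ i, (v i - u i)|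
      ≤ Disc d N a := by
    intro u v h
    exact le_csSup (DISC.bdd d N a) ⟨u, v, h, rfl⟩
  refine ⟨hA, fun hd => ?_⟩
  have hN' : (0 : ℝ) < N := by exact_mod_cast hN
  have key : ∀ η : ℝ, 0 < η → η ≤ 1 → 1 / (N : ℝ) ≤ Disc d N a + η := by
    intro η h0 h1
    have h2 := hA (fun _ => 0) (fun _ => η) (fun i => ⟨le_rfl, h0.le, h1⟩)
    have h3 : (1 : ℝ) ≤ (((range N).filter (fun n : ℕ => ∀ i : Fin d,
        (0 : ℝ) ≤ Int.fract (((n * a i : ℕ) : ℝ) / (N : ℝ)) ∧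
        Int.fract (((n * a i : ℕ) : ℝ) / (N : ℝ)) < η)).card : ℝ) := by
      have : 0 < ((range N).filter (fun n : ℕ => ∀ i : Fin d,
          (0 : ℝ) ≤ Int.fract (((n * a i : ℕ) : ℝ) / (N : ℝ)) ∧
          Int.fract (((n * a i : ℕ) : ℝ) / (N : ℝ)) < η)).card := by
        apply card_pos.2
        refine ⟨0, ?_⟩
        rw [mem_filter]
        refine ⟨mem_range.2 hN, fun i => ?_⟩
        simp [h0]
      exact_mod_cast this
    have h4 : ∏ _i : Fin d, (η - 0) ≤ η := by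
      rw [prod_const, card_univ, Fintype.card_fin, sub_zero]
      exact pow_le_of_le_one h0.le h1 (by omega)
    have h5 : (1 : ℝ) / N ≤ (((range N).filter (fun n : ℕ => ∀ i : Fin d,
        (0 : ℝ) ≤ Int.fract (((n * a i : ℕ) : ℝ) / (N : ℝ)) ∧
        Int.fract (((n * a i : ℕ) : ℝ) / (N : ℝ)) < η)).card : ℝ) / N := by
      gcongr
    have h6 := le_abs_self ((((range N).filter (fun n : ℕ => ∀ i : Fin d,
        (0 : ℝ) ≤ Int.fract (((n * a i : ℕ) : ℝ) / (N : ℝ)) ∧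
        Int.fract (((n * a i : ℕ) : ℝ) / (N : ℝ)) < η)).card : ℝ) / N - ∏ _i : Fin d, (η - 0))
    linarith
  refine le_of_forall_pos_le_add (fun ε hε => ?_)
  have h7 := key (min ε 1) (lt_min hε one_pos) (min_le_right _ _)
  have h8 := min_le_left ε 1
  linarith

end Pool.Agent.H484.AL
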